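import Pool.Agent.Helper73.RF.GoalsD

/-! # Project RF, packet D4: spatial minimum -/

set_option autoImplicit false

open Finset Pool.Agent.Helper47.RF Pool.Agent.Helper73.RF

namespace Pool.Agent.Helper57.RF

/-- second order necessary condition at a local minimum -/
theorem snd_nonneg {F F' : ℝ → ℝ} {F2 : ℝ} (h1 : ∀ r, HasDerivAt F (F' r) r)
    (h2 : HasDerivAt F' F2 0) (hmin : ∀ r, F 0 ≤ F r) : F' 0 = 0 ∧ 0 ≤ F2 := by
  have hlm : IsLocalMin F 0 := Filter.Eventually.of_forall hmin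
  have h0 : F' 0 = 0 := hlm.hasDerivAt_eq_zero (h1 0)
  refine ⟨h0, ?_⟩
  by_contra hneg
  push Not at hneg
  have hd : deriv F = F' := funext fun r => (h1 r).deriv
  have hdd : deriv (deriv F) 0 = F2 := by
    rw [hd]
    exact h2.deriv
  have hmax : IsLocalMax F 0 := isLocalMax_of_deriv_deriv_neg (by rw [hdd]; exact hneg)
    (by rw [hd]; exact h0) (h1 0).continuousAt
  have hconst : F =ᶠ[nhds 0] fun _ => F 0 := by
    filter_upwards [hmax] with r hr
    exact le_antisymm hr (hmin r)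
  have h3 : deriv F =ᶠ[nhds 0] fun _ => (0 : ℝ) := by
    have := hconst.deriv
    simpa using this
  have h4 : deriv (deriv F) 0 = 0 := by
    rw [h3.deriv_eq]
    simp
  rw [hdd] at h4
  linarith

/-- `∑ c_i e_i` -/
noncomputable def lin (c : Fin 3 → ℝ) : HH := ∑ i, c i • qe i

theorem qe_re (i : Fin 3) : (qe i).re = 0 := by
  fin_cases i <;> rfl

theorem lin_re (c : Fin 3 → ℝ) : (lin c).re = 0 := by
  unfold lin
  rw [Fin.sum_univ_three]
  simp [qe_re]

theorem norm_exp_smul_lin (c : Fin 3 → ℝ) (r : ℝ) : ‖NormedSpace.exp (r • lin c)‖ = 1 := by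
  rw [Quaternion.norm_exp]
  have : (r • lin c).re = 0 := by simp [lin_re]
  rw [this]
  simp

/-- the field of `cf c d` -/
noncomputable def XF (c d : Fin 3 → ℝ) : VF := vf (lin c) (lin (fun k => d k / 2)) 0 0

theorem cf_eq (T : ℝ) (c d : Fin 3 → ℝ) (f : (baC T).B) :
    (baC T).cf c d f = derB T (XF c d) f := by
  apply Subtype.ext
  funext p
  have h : ((baC T).cf c d f : (baC T).B) =
      ∑ i, (c i • (derB T (vf (qe i) 0 0 0) f)) +
        ∑ k, d k • (derB T (vf 0 ((1 / 2 : ℝ) • qe k) 0 0) f) := rfl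
  rw [h]
  have h2 : ((∑ i, (c i • (derB T (vf (qe i) 0 0 0) f)) +
        ∑ k, d k • (derB T (vf 0 ((1 / 2 : ℝ) • qe k) 0 0) f) : BB T) : Om T → ℝ) p =
      ∑ i, c i * fderiv ℝ (exT (f : BB T).1) p ((vf (qe i) 0 0 0).X p) +
        ∑ k, d k * fderiv ℝ (exT (f : BB T).1) p ((vf 0 ((1 / 2 : ℝ) • qe k) 0 0).X p) := by
    simp only [Fin.sum_univ_three]
    rfl
  rw [h2]
  show _ = fderiv ℝ (exT (f : BB T).1) p ((XF c d).X p)
  have h3 : (XF c d).X (p : W) = ∑ i, c i • (vf (qe i) 0 0 0).X (p : W) +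
      ∑ k, d k • (vf 0 ((1 / 2 : ℝ) • qe k) 0 0).X (p : W) := by
    simp only [Fin.sum_univ_three]
    refine Prod.ext ?_ (Prod.ext ?_ ?_)
    · simp [XF, vf, lin, Fin.sum_univ_three, mul_add]
    · simp only [XF, vf, lin, Fin.sum_univ_three, Prod.smul_mk, Prod.mk_add_mk, mul_add,
        mul_smul_comm, smul_smul, mul_zero, zero_mul, add_zero, smul_zero, zero_add, div_eq_mul_inv,
        one_mul]
    · simp [XF, vf]
  rw [h3, map_add, map_sum, map_sum]
  simp only [map_smul, smul_eq_mul]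

/-- the curve -/
noncomputable def cur (c d : Fin 3 → ℝ) (x q : HH) (t r : ℝ) : W :=
  (x * NormedSpace.exp (r • lin c), q * NormedSpace.exp (r • lin (fun k => d k / 2)), t)

theorem cur_deriv (c d : Fin 3 → ℝ) (x q : HH) (t r : ℝ) :
    HasDerivAt (cur c d x q t) ((XF c d).X (cur c d x q t r)) r := by
  have h1 : HasDerivAt (fun u : ℝ => x * NormedSpace.exp (u • lin c))
      (x * (NormedSpace.exp (r • lin c) * lin c)) r :=
    (hasDerivAt_exp_smul_const (𝕂 := ℝ) (lin c) r).const_mul x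
  have h2 : HasDerivAt (fun u : ℝ => q * NormedSpace.exp (u • lin (fun k => d k / 2)))
      (q * (NormedSpace.exp (r • lin (fun k => d k / 2)) * lin (fun k => d k / 2))) r :=
    (hasDerivAt_exp_smul_const (𝕂 := ℝ) (lin (fun k => d k / 2)) r).const_mul q
  have h3 := h1.prodMk (h2.prodMk (hasDerivAt_const r t))
  have e : (XF c d).X (cur c d x q t r) = (x * (NormedSpace.exp (r • lin c) * lin c),
      q * (NormedSpace.exp (r • lin (fun k => d k / 2)) * lin (fun k => d k / 2)), (0 : ℝ)) := by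
    refine Prod.ext ?_ (Prod.ext ?_ ?_)
    · simp [XF, vf, cur, mul_assoc]
    · simp [XF, vf, cur, mul_assoc]
    · simp [XF, vf]
  rw [e]
  exact h3

theorem d4 : D4Stmt := by
  intro T f z t hmin c d
  set x : Metric.sphere (0 : HH) 1 := Prod.fst z with hx
  set q : Metric.sphere (0 : HH) 1 := Prod.snd z with hq
  set γ : ℝ → W := cur c d x q t with hγ
  have hmem : ∀ r, ∃ z' : ZZ, γ r = ((z'.1 : HH), (z'.2 : HH), (t : ℝ)) := by
    intro r
    have hx1 : ‖(x : HH)‖ = 1 := by simpa using x.2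
    have hq1 : ‖(q : HH)‖ = 1 := by simpa using q.2
    refine ⟨(⟨x * NormedSpace.exp (r • lin c), ?_⟩,
      ⟨q * NormedSpace.exp (r • lin (fun k => d k / 2)), ?_⟩), rfl⟩
    · rw [mem_sphere_zero_iff_norm, norm_mul, norm_exp_smul_lin, hx1, mul_one]
    · rw [mem_sphere_zero_iff_norm, norm_mul, norm_exp_smul_lin, hq1, mul_one]
  have hOm : ∀ r, γ r ∈ Om T := by
    intro r
    obtain ⟨z', hz'⟩ := hmem r
    rw [hz']
    exact zz_mem z' t
  have hev : ∀ (g : (baC T).B) (z' : ZZ),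
      (baC T).ev z' t g = exT (g : BB T).1 ((z'.1 : HH), (z'.2 : HH), (t : ℝ)) := by
    intro g z'
    rw [exT_of_mem _ (zz_mem z' t)]
    rfl
  have hγ0 : γ 0 = ((x : HH), (q : HH), (t : ℝ)) := by
    simp [hγ, cur]
  have hder : ∀ (g : (baC T).B) (r : ℝ), HasDerivAt (fun r => exT (g : BB T).1 (γ r))
      (exT ((derB T (XF c d) g : BB T)).1 (γ r)) r := by
    intro g r
    have h1 := exT_hasFDerivAt (g : BB T).2 (hOm r)
    have h2 := h1.comp_hasDerivAt r (cur_deriv c d x q t r)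
    rw [exT_of_mem _ (hOm r)]
    exact h2
  have hmain := snd_nonneg (F := fun r => exT (f : BB T).1 (γ r))
    (F' := fun r => exT ((derB T (XF c d) f : BB T)).1 (γ r)) (hder f)
    (hder (derB T (XF c d) f) 0) (by
      intro r
      obtain ⟨z', hz'⟩ := hmem r
      have h1 := hmin z'
      rw [hev f z', hev f z] at h1
      show exT (f : BB T).1 (γ 0) ≤ exT (f : BB T).1 (γ r)
      rw [hz', hγ0]
      exact h1)
  rw [cf_eq, cf_eq]
  rw [hev _ z, hev _ z]
  have hγ0' : ((((z : ZZ).1 : HH), ((z : ZZ).2 : HH), (t : ℝ)) : W) = γ 0 := hγ0.symm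
  rw [hγ0']
  exact hmain

end Pool.Agent.Helper57.RF
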